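import Pool.Agent.Work.MP_a7fe73_theta.Merge

/-!
# Hamilton circuits in digraphs covered by `m` cliques of the 2-circuit graph
-/

set_option autoImplicit false
set_option linter.unusedSectionVars false

namespace Pool.A7T

open Finset Equiv

variable {V ι : Type} [Fintype V] [DecidableEq V] [Fintype ι] [DecidableEq ι]

theorem single_perm {D : Digraph V} {k : ℕ} (hst : Strong D k) {c : V → ι}
    (hc : ∀ u v, u ≠ v → c u = c v → D.Adj u v) (hk : 4 * Fintype.card ι ≤ k) :
    ∃ σ : Perm V, (∀ u v, σ.SameCycle u v) ∧ ∀ v, D.Adj v (σ v) := by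
  have hn := hst.1
  have hV : Nonempty V := Fintype.card_pos_iff.1 (by omega)
  have hι : 0 < Fintype.card ι := Fintype.card_pos_iff.2 ⟨c hV.some⟩
  have hb : 0 < (big c).card := by
    by_contra h0
    have h1 : big c = ∅ := card_eq_zero.1 (by omega)
    have h2 : Zs c = univ := by
      ext v
      rw [mem_Zs, h1]
      simp
    have h3 := card_Z_big c
    rw [h2, card_univ] at h3
    omega
  obtain ⟨A, B, g, h⟩ := GS.exists hst hk hb
  have h1 := card_Z_big c
  have h2 := h.cA
  exact exists_single hst hc h (by omega) (by omega)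

theorem list_of_perm {D : Digraph V} {σ : Perm V} (h1 : ∀ u v, σ.SameCycle u v)
    (h2 : ∀ v, D.Adj v (σ v)) (v₀ : V) :
    ∃ f : Fin (Fintype.card V) → V, Function.Bijective f ∧
      ∀ i j : Fin (Fintype.card V), j.val = (i.val + 1) % Fintype.card V → D.Adj (f i) (f j) := by
  have hcyc : σ.IsCycleOn ((univ : Finset V) : Set V) := by
    refine ⟨?_, fun x _ y _ => h1 x y⟩
    rw [coe_univ]
    exact Set.bijOn_univ.2 σ.bijective
  have hpow : ∀ n : ℕ, (σ ^ n) v₀ = v₀ ↔ Fintype.card V ∣ n := by
    intro n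
    rw [← card_univ]
    exact hcyc.pow_apply_eq (mem_univ _)
  refine ⟨fun i => (σ ^ i.val) v₀, ?_, ?_⟩
  · rw [Fintype.bijective_iff_injective_and_card]
    refine ⟨?_, Fintype.card_fin _⟩
    have key : ∀ i j : Fin (Fintype.card V), i.val ≤ j.val →
        (σ ^ i.val) v₀ = (σ ^ j.val) v₀ → i = j := by
      intro i j hij he
      have h3 : (σ ^ (j.val - i.val)) v₀ = v₀ := by
        have h4 : (σ ^ j.val) v₀ = (σ ^ i.val) ((σ ^ (j.val - i.val)) v₀) := by
          rw [← Perm.mul_apply, ← pow_add, Nat.add_sub_cancel' hij]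
        rw [h4] at he
        exact ((σ ^ i.val).injective he).symm
      rw [hpow] at h3
      have h5 : j.val - i.val = 0 := Nat.eq_zero_of_dvd_of_lt h3 (by omega)
      exact Fin.ext (by omega)
    intro i j he
    rcases Nat.le_total i.val j.val with h3 | h3
    · exact key i j h3 he
    · exact (key j i h3 he.symm).symm
  · intro i j hij
    have h3 : (σ ^ j.val) v₀ = σ ((σ ^ i.val) v₀) := by
      rw [← Perm.mul_apply, ← pow_succ']
      rcases Nat.lt_or_ge (i.val + 1) (Fintype.card V) with h4 | h4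
      · rw [Nat.mod_eq_of_lt h4] at hij
        rw [hij]
      · have h5 : i.val + 1 = Fintype.card V := by omega
        rw [h5, Nat.mod_self] at hij
        rw [hij, h5, pow_zero, Perm.one_apply]
        exact ((hpow _).2 dvd_rfl).symm
    simp only [h3]
    exact h2 _

theorem ham {D : Digraph V} {k : ℕ} (hst : Strong D k) {c : V → ι}
    (hc : ∀ u v, u ≠ v → c u = c v → D.Adj u v) (hk : 4 * Fintype.card ι ≤ k) :
    ∃ f : Fin (Fintype.card V) → V, Function.Bijective f ∧
      ∀ i j : Fin (Fintype.card V), j.val = (i.val + 1) % Fintype.card V → D.Adj (f i) (f j) := by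
  have hn := hst.1
  have hV : Nonempty V := Fintype.card_pos_iff.1 (by omega)
  obtain ⟨σ, h1, h2⟩ := single_perm hst hc hk
  exact list_of_perm h1 h2 hV.some

end Pool.A7T
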