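import Mathlib

/-!
# Digraphs covered by few cliques of the 2-circuit graph: definitions, the cut lemma
-/

set_option autoImplicit false
set_option linter.unusedSectionVars false

namespace Pool.A7T

open Finset

variable {V ι : Type} [Fintype V] [DecidableEq V] [Fintype ι] [DecidableEq ι]

/-- `k`-strong digraphs -/
def Strong (D : Digraph V) (k : ℕ) : Prop :=
  k + 1 ≤ Fintype.card V ∧
    ∀ X : Finset V, X.card < k → ∀ u v : V, u ∉ X → v ∉ X →
      Relation.ReflTransGen (fun a b => a ∉ X ∧ b ∉ X ∧ D.Adj a b) u v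

theorem cut_arc {D : Digraph V} {k : ℕ} (hst : Strong D k) {R S Q : Finset V}
    (hR : R.card < k) (hS : S.Nonempty) (hQ : Q.Nonempty) (hSR : ∀ v ∈ S, v ∉ R)
    (hQR : ∀ v ∈ Q, v ∉ R) (hSQ : ∀ v ∈ S, v ∉ Q) (hcov : ∀ v, v ∈ R ∨ v ∈ S ∨ v ∈ Q) :
    ∃ x ∈ S, ∃ y ∈ Q, D.Adj x y := by
  by_contra hno
  push Not at hno
  obtain ⟨u, hu⟩ := hS
  obtain ⟨v, hv⟩ := hQ
  have hp := hst.2 R hR u v (hSR u hu) (hQR v hv)
  have key : ∀ w, Relation.ReflTransGen (fun a b => a ∉ R ∧ b ∉ R ∧ D.Adj a b) u w → w ∈ S := by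
    intro w hw
    induction hw with
    | refl => exact hu
    | tail _ hbc ih =>
      rename_i b d _
      rcases hcov d with h | h | h
      · exact absurd h hbc.2.1
      · exact h
      · exact absurd hbc.2.2 (hno b ih d h)
  exact hSQ v (key v hp) hv

/-- the class of colour `i` -/
def T (c : V → ι) (i : ι) : Finset V := univ.filter (fun v => c v = i)

/-- the colours of the classes with at least two vertices -/
def big (c : V → ι) : Finset ι := univ.filter (fun i => 2 ≤ (T c i).card)

/-- the vertices of the classes with one vertex -/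
def Zs (c : V → ι) : Finset V := univ.filter (fun v => (T c (c v)).card < 2)

theorem mem_T {c : V → ι} {i : ι} {v : V} : v ∈ T c i ↔ c v = i := by simp [T]

theorem mem_big {c : V → ι} {i : ι} : i ∈ big c ↔ 2 ≤ (T c i).card := by simp [big]

theorem mem_Zs {c : V → ι} {v : V} : v ∈ Zs c ↔ c v ∉ big c := by simp [Zs, big]

theorem card_Z_big (c : V → ι) : (Zs c).card + (big c).card ≤ Fintype.card ι := by
  have hinj : Set.InjOn c (Zs c : Set V) := by
    intro u hu v hv huv
    have h1 : (T c (c v)).card < 2 := by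
      have := (mem_coe.1 hv)
      simpa [Zs] using this
    have h2 : (T c (c v)).card ≤ 1 := by omega
    exact card_le_one.1 h2 u (mem_T.2 huv) v (mem_T.2 rfl)
  have h1 : ((Zs c).image c).card = (Zs c).card := card_image_of_injOn hinj
  have hd : Disjoint ((Zs c).image c) (big c) := by
    rw [disjoint_left]
    intro i hi hb
    obtain ⟨v, hv, rfl⟩ := mem_image.1 hi
    exact mem_Zs.1 hv hb
  rw [← h1, ← card_union_of_disjoint hd, ← card_univ]
  exact card_le_card (subset_univ _)

theorem sum_fiber (c : V → ι) (A : Finset V) (J : Finset ι) :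
    ∑ i ∈ J, (A ∩ T c i).card = (A.filter (fun x => c x ∈ J)).card := by
  rw [card_eq_sum_card_fiberwise (f := c) (s := A.filter (fun x => c x ∈ J)) (t := J)
    (fun x hx => (mem_filter.1 (mem_coe.1 hx)).2)]
  refine sum_congr rfl fun i hi => ?_
  congr 1
  ext x
  simp only [mem_inter, mem_T, mem_filter]
  constructor
  · rintro ⟨h1, h2⟩
    exact ⟨⟨h1, h2 ▸ hi⟩, h2⟩
  · rintro ⟨⟨h1, _⟩, h2⟩
    exact ⟨h1, h2⟩

/-- capacity of all classes implies capacity of unions of classes -/
theorem half {c : V → ι} {A : Finset V} (h : ∀ i, 2 * (A ∩ T c i).card ≤ (T c i).card)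
    (J : Finset ι) :
    2 * (A.filter (fun x => c x ∈ J)).card ≤ ((univ : Finset V).filter (fun x => c x ∈ J)).card := by
  rw [← sum_fiber c A J, ← sum_fiber c univ J, mul_sum]
  refine sum_le_sum fun i _ => ?_
  rw [univ_inter]
  exact h i

/-- vertices of the saturated classes -/
def SO (c : V → ι) (A : Finset V) (X : Finset ι) : Finset V :=
  (X.filter (fun i => (T c i).card < 2 * ((A ∩ T c i).card + 1))).biUnion (T c)

theorem mem_SO {c : V → ι} {A : Finset V} {X : Finset ι} {v : V} :
    v ∈ SO c A X ↔ c v ∈ X ∧ (T c (c v)).card < 2 * ((A ∩ T c (c v)).card + 1) := by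
  unfold SO
  simp only [mem_biUnion, mem_filter, mem_T]
  constructor
  · rintro ⟨i, hi, rfl⟩
    exact hi
  · intro h
    exact ⟨c v, h, rfl⟩

theorem card_SO (c : V → ι) (A : Finset V) (X : Finset ι) :
    (SO c A X \ A).card ≤ (A.filter (fun x => c x ∈ X)).card + X.card := by
  have h1 : SO c A X \ A ⊆
      (X.filter (fun i => (T c i).card < 2 * ((A ∩ T c i).card + 1))).biUnion
        (fun i => T c i \ A) := by
    intro v hv
    rw [mem_sdiff, mem_SO] at hv
    rw [mem_biUnion]
    exact ⟨c v, mem_filter.2 hv.1, mem_sdiff.2 ⟨mem_T.2 rfl, hv.2⟩⟩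
  refine (card_le_card h1).trans (card_biUnion_le.trans ?_)
  have h2 : ∑ i ∈ X.filter (fun i => (T c i).card < 2 * ((A ∩ T c i).card + 1)),
      (T c i \ A).card ≤ ∑ i ∈ X.filter (fun i => (T c i).card < 2 * ((A ∩ T c i).card + 1)),
        ((A ∩ T c i).card + 1) := by
    refine sum_le_sum fun i hi => ?_
    have h3 := (mem_filter.1 hi).2
    have h4 : (T c i \ A).card + (A ∩ T c i).card = (T c i).card := by
      rw [inter_comm, card_sdiff_add_card_inter]
    omega
  refine h2.trans ?_
  refine (sum_le_sum_of_subset (filter_subset _ _)).trans ?_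
  rw [sum_add_distrib, sum_fiber, sum_const, smul_eq_mul, mul_one]

end Pool.A7T
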