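import Pool.Agent.Work.MP_a7fe73_theta.Defs

/-!
# A forest of disjoint arcs connecting the big classes
-/

set_option autoImplicit false
set_option linter.unusedSectionVars false

namespace Pool.A7T

open Finset

variable {V ι : Type} [Fintype V] [DecidableEq V] [Fintype ι] [DecidableEq ι]

/-- state of the construction of the forest -/
structure FS (D : Digraph V) (c : V → ι) (A B : Finset V) (g : V → V) (lab : ι → ι) (r : ℕ) :
    Prop where
  cA : A.card = r
  im : A.image g = B
  inj : Set.InjOn g (A : Set V)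
  dis : ∀ x ∈ A, x ∉ B
  AZ : ∀ x ∈ A, c x ∈ big c
  BZ : ∀ x ∈ B, c x ∈ big c
  arc : ∀ x ∈ A, D.Adj x (g x)
  capA : ∀ i, 2 * (A ∩ T c i).card ≤ (T c i).card
  capB : ∀ i, 2 * (B ∩ T c i).card ≤ (T c i).card
  lc : ((big c).image lab).card + r = (big c).card
  fA : ∀ i ∈ big c, ∃ j ∈ big c, lab j = lab i ∧ ∀ x ∈ A, c x ≠ j
  fB : ∀ i ∈ big c, ∃ j ∈ big c, lab j = lab i ∧ ∀ x ∈ B, c x ≠ j
  ins : ∀ x ∈ A, lab (c x) = lab (c (g x))
  con : ∀ f : ι → Prop, (∀ x ∈ A, (f (c x) ↔ f (c (g x)))) →
    ∀ i ∈ big c, ∀ j ∈ big c, lab i = lab j → (f i ↔ f j)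

theorem FS.base (D : Digraph V) (c : V → ι) : FS D c ∅ ∅ id id 0 where
  cA := rfl
  im := rfl
  inj := by simp
  dis := by simp
  AZ := by simp
  BZ := by simp
  arc := by simp
  capA := by simp
  capB := by simp
  lc := by simp
  fA := fun i hi => ⟨i, hi, rfl, by simp⟩
  fB := fun i hi => ⟨i, hi, rfl, by simp⟩
  ins := by simp
  con := by
    intro f _ i _ j _ h
    have h' : i = j := h
    subst h'
    exact Iff.rfl

theorem cap_insert {c : V → ι} {A : Finset V} {x : V} {X : Finset ι}
    (h : ∀ i, 2 * (A ∩ T c i).card ≤ (T c i).card) (hX : c x ∈ X) (hx : x ∉ SO c A X) (i : ι) :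
    2 * (insert x A ∩ T c i).card ≤ (T c i).card := by
  by_cases hi : c x = i
  · subst hi
    have h1 : (insert x A ∩ T c (c x)).card ≤ (A ∩ T c (c x)).card + 1 := by
      rw [insert_inter_of_mem (mem_T.2 rfl)]
      exact card_insert_le _ _
    have h2 : ¬ (T c (c x)).card < 2 * ((A ∩ T c (c x)).card + 1) := fun h3 =>
      hx (mem_SO.2 ⟨hX, h3⟩)
    omega
  · rw [insert_inter_of_notMem (fun h1 => hi (mem_T.1 h1))]
    exact h i

theorem FS.step {D : Digraph V} {k : ℕ} (hst : Strong D k) {c : V → ι}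
    (hk : 4 * Fintype.card ι ≤ k) {A B : Finset V} {g : V → V} {lab : ι → ι} {r : ℕ}
    (h : FS D c A B g lab r) (hr : r + 1 < (big c).card) :
    ∃ A' B' g' lab', FS D c A' B' g' lab' (r + 1) := by
  have hlc := h.lc
  obtain ⟨ℓ₁, hℓ₁, ℓ₂, hℓ₂, hne⟩ := one_lt_card.1 (by omega : 1 < ((big c).image lab).card)
  obtain ⟨i₁, hi₁, rfl⟩ := mem_image.1 hℓ₁
  obtain ⟨i₂, hi₂, rfl⟩ := mem_image.1 hℓ₂
  set X := (big c).filter (fun i => lab i = lab i₁) with hX
  set Y := (big c).filter (fun i => lab i ≠ lab i₁) with hY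
  have hXY : X.card + Y.card = (big c).card := by
    rw [hX, hY]
    exact card_filter_add_card_filter_not _
  set R := Zs c ∪ (A ∪ (B ∪ (SO c A X ∪ SO c B Y))) with hRdef
  have hmR : ∀ v, v ∈ R ↔ c v ∉ big c ∨ v ∈ A ∨ v ∈ B ∨ v ∈ SO c A X ∨ v ∈ SO c B Y := by
    intro v
    rw [hRdef]
    simp only [mem_union, mem_Zs]
  -- the size of `R`
  have hRc : R.card < k := by
    have h1 : R ⊆ Zs c ∪ (A ∪ (B ∪ ((SO c A X \ A) ∪ (SO c B Y \ B)))) := by
      intro v hv
      rw [hRdef] at hv
      simp only [mem_union, mem_sdiff] at hv ⊢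
      tauto
    have h2 := (card_le_card h1).trans ((card_union_le _ _).trans (Nat.add_le_add_left
      ((card_union_le _ _).trans (Nat.add_le_add_left ((card_union_le _ _).trans
        (Nat.add_le_add_left (card_union_le _ _) _)) _)) _))
    have h3 := card_SO c A X
    have h4 := card_SO c B Y
    have hBc : B.card = r := by
      rw [← h.im, card_image_of_injOn h.inj, h.cA]
    have h5 : (A.filter (fun x => c x ∈ X)).card = (B.filter (fun x => c x ∈ X)).card := by
      have h6 : B.filter (fun x => c x ∈ X) = (A.filter (fun x => c x ∈ X)).image g := by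
        ext y
        simp only [mem_filter, mem_image]
        constructor
        · rintro ⟨hy, hyX⟩
          rw [← h.im] at hy
          obtain ⟨x, hx, rfl⟩ := mem_image.1 hy
          refine ⟨x, ⟨hx, ?_⟩, rfl⟩
          rw [hX, mem_filter] at hyX ⊢
          exact ⟨h.AZ x hx, (h.ins x hx).trans hyX.2⟩
        · rintro ⟨x, ⟨hx, hxX⟩, rfl⟩
          have hgx : g x ∈ B := by rw [← h.im]; exact mem_image_of_mem g hx
          refine ⟨hgx, ?_⟩
          rw [hX, mem_filter] at hxX ⊢
          exact ⟨h.BZ _ hgx, (h.ins x hx).symm.trans hxX.2⟩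
      rw [h6, card_image_of_injOn (h.inj.mono (fun x hx => ?_))]
      exact mem_coe.2 (mem_filter.1 (mem_coe.1 hx)).1
    have h7 : (B.filter (fun x => c x ∈ X)).card + (B.filter (fun x => c x ∈ Y)).card ≤ B.card := by
      rw [← card_union_of_disjoint]
      · refine card_le_card ?_
        exact union_subset (filter_subset _ _) (filter_subset _ _)
      · rw [disjoint_left]
        intro x hx hx'
        have h8 := (mem_filter.1 hx).2
        have h9 := (mem_filter.1 hx').2
        rw [hX, mem_filter] at h8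
        rw [hY, mem_filter] at h9
        exact h9.2 h8.2
    have h10 := card_Z_big c
    have h11 := h.cA
    omega
  -- the two sides
  obtain ⟨j₁, hj₁, hj₁l, hj₁A⟩ := h.fA i₁ hi₁
  obtain ⟨j₂, hj₂, hj₂l, hj₂B⟩ := h.fB i₂ hi₂
  have hj₁X : j₁ ∈ X := by rw [hX, mem_filter]; exact ⟨hj₁, hj₁l⟩
  have hj₂Y : j₂ ∈ Y := by rw [hY, mem_filter]; exact ⟨hj₂, fun h' => hne (h'.symm.trans hj₂l)⟩
  have hdXY : ∀ i, i ∈ X → i ∉ Y := by
    intro i hi hi'
    rw [hX, mem_filter] at hi
    rw [hY, mem_filter] at hi'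
    exact hi'.2 hi.2
  have hS : ((univ.filter (fun v => c v ∈ X)) \ R).Nonempty := by
    have h1 : ¬ T c j₁ ⊆ B := by
      intro hsub
      have h2 := h.capB j₁
      rw [inter_eq_right.2 hsub] at h2
      have h3 := mem_big.1 hj₁
      omega
    obtain ⟨v, hv, hvB⟩ := not_subset.1 h1
    have hcv := mem_T.1 hv
    refine ⟨v, mem_sdiff.2 ⟨mem_filter.2 ⟨mem_univ _, hcv ▸ hj₁X⟩, fun hvR => ?_⟩⟩
    rcases (hmR v).1 hvR with h2 | h2 | h2 | h2 | h2
    · exact h2 (hcv ▸ hj₁)
    · exact hj₁A v h2 hcv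
    · exact hvB h2
    · have h3 := (mem_SO.1 h2).2
      rw [hcv] at h3
      have h4 : A ∩ T c j₁ = ∅ := by
        rw [eq_empty_iff_forall_notMem]
        intro x hx
        exact hj₁A x (mem_inter.1 hx).1 (mem_T.1 (mem_inter.1 hx).2)
      rw [h4, card_empty] at h3
      have h5 := mem_big.1 hj₁
      omega
    · have h3 := (mem_SO.1 h2).1
      rw [hcv] at h3
      exact hdXY _ hj₁X h3
  have hQ : ((univ.filter (fun v => c v ∈ Y)) \ R).Nonempty := by
    have h1 : ¬ T c j₂ ⊆ A := by
      intro hsub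
      have h2 := h.capA j₂
      rw [inter_eq_right.2 hsub] at h2
      have h3 := mem_big.1 hj₂
      omega
    obtain ⟨v, hv, hvA⟩ := not_subset.1 h1
    have hcv := mem_T.1 hv
    refine ⟨v, mem_sdiff.2 ⟨mem_filter.2 ⟨mem_univ _, hcv ▸ hj₂Y⟩, fun hvR => ?_⟩⟩
    rcases (hmR v).1 hvR with h2 | h2 | h2 | h2 | h2
    · exact h2 (hcv ▸ hj₂)
    · exact hvA h2
    · exact hj₂B v h2 hcv
    · have h3 := (mem_SO.1 h2).1
      rw [hcv] at h3
      exact hdXY _ h3 hj₂Y
    · have h3 := (mem_SO.1 h2).2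
      rw [hcv] at h3
      have h4 : B ∩ T c j₂ = ∅ := by
        rw [eq_empty_iff_forall_notMem]
        intro x hx
        exact hj₂B x (mem_inter.1 hx).1 (mem_T.1 (mem_inter.1 hx).2)
      rw [h4, card_empty] at h3
      have h5 := mem_big.1 hj₂
      omega
  obtain ⟨x, hx, y, hy, hxy⟩ := cut_arc hst hRc hS hQ (fun v hv => (mem_sdiff.1 hv).2)
    (fun v hv => (mem_sdiff.1 hv).2)
    (fun v hv hv' => hdXY _ (mem_filter.1 (mem_sdiff.1 hv).1).2
      (mem_filter.1 (mem_sdiff.1 hv').1).2)
    (fun v => by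
      by_cases hvR : v ∈ R
      · exact Or.inl hvR
      · have h1 : c v ∈ big c := by
          by_contra h2
          exact hvR ((hmR v).2 (Or.inl h2))
        by_cases h2 : lab (c v) = lab i₁
        · refine Or.inr (Or.inl (mem_sdiff.2 ⟨mem_filter.2 ⟨mem_univ _, ?_⟩, hvR⟩))
          rw [hX, mem_filter]
          exact ⟨h1, h2⟩
        · refine Or.inr (Or.inr (mem_sdiff.2 ⟨mem_filter.2 ⟨mem_univ _, ?_⟩, hvR⟩))
          rw [hY, mem_filter]
          exact ⟨h1, h2⟩)
  have hxX : c x ∈ X := (mem_filter.1 (mem_sdiff.1 hx).1).2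
  have hyY : c y ∈ Y := (mem_filter.1 (mem_sdiff.1 hy).1).2
  have hxR := (mem_sdiff.1 hx).2
  have hyR := (mem_sdiff.1 hy).2
  rw [hmR] at hxR hyR
  push Not at hxR hyR
  obtain ⟨hxb, hxA, hxB, hxSO, -⟩ := hxR
  obtain ⟨hyb, hyA, hyB, -, hySO⟩ := hyR
  have hlx : lab (c x) = lab i₁ := by rw [hX, mem_filter] at hxX; exact hxX.2
  have hly : lab (c y) ≠ lab i₁ := by rw [hY, mem_filter] at hyY; exact hyY.2
  have hxy' : x ≠ y := by
    rintro rfl
    exact hly hlx
  have hupd : ∀ x' ∈ A, Function.update g x y x' = g x' := fun x' hx' =>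
    Function.update_of_ne (fun h1 : x' = x => hxA (by rw [← h1]; exact hx')) _ _
  refine ⟨insert x A, insert y B, Function.update g x y,
    fun i => if lab i = lab (c y) then lab i₁ else lab i, ?_⟩
  refine ⟨?_, ?_, ?_, ?_, ?_, ?_, ?_, ?_, ?_, ?_, ?_, ?_, ?_, ?_⟩
  · rw [card_insert_of_notMem hxA, h.cA]
  · rw [image_insert, Function.update_self]
    congr 1
    rw [← h.im]
    exact image_congr (fun x' hx' => hupd x' (mem_coe.1 hx'))
  · intro u hu v hv huv
    rw [mem_coe, mem_insert] at hu hv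
    rcases hu with rfl | hu <;> rcases hv with rfl | hv
    · rfl
    · rw [Function.update_self, hupd v hv] at huv
      exact absurd (by rw [huv, ← h.im]; exact mem_image_of_mem g hv) hyB
    · rw [Function.update_self, hupd u hu] at huv
      exact absurd (by rw [← huv, ← h.im]; exact mem_image_of_mem g hu) hyB
    · rw [hupd u hu, hupd v hv] at huv
      exact h.inj (mem_coe.2 hu) (mem_coe.2 hv) huv
  · intro v hv hv'
    rw [mem_insert] at hv hv'
    rcases hv with rfl | hv <;> rcases hv' with h1 | h1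
    · exact hxy' h1
    · exact hxB h1
    · exact hyA (h1 ▸ hv)
    · exact h.dis v hv h1
  · intro v hv
    rcases mem_insert.1 hv with rfl | hv
    · exact hxb
    · exact h.AZ v hv
  · intro v hv
    rcases mem_insert.1 hv with rfl | hv
    · exact hyb
    · exact h.BZ v hv
  · intro v hv
    rcases mem_insert.1 hv with rfl | hv
    · rw [Function.update_self]; exact hxy
    · rw [hupd v hv]; exact h.arc v hv
  · exact cap_insert h.capA hxX hxSO
  · exact cap_insert h.capB hyY hySO
  · have h1 : (big c).image (fun i => if lab i = lab (c y) then lab i₁ else lab i)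
        = ((big c).image lab).erase (lab (c y)) := by
      ext ℓ
      simp only [mem_image, mem_erase]
      constructor
      · rintro ⟨i, hi, rfl⟩
        split_ifs with h2
        · exact ⟨hly.symm, i₁, hi₁, rfl⟩
        · exact ⟨h2, i, hi, rfl⟩
      · rintro ⟨h2, i, hi, rfl⟩
        exact ⟨i, hi, if_neg h2⟩
    rw [h1, card_erase_of_mem (mem_image_of_mem lab hyb)]
    have h2 : 0 < ((big c).image lab).card := card_pos.2 ⟨_, mem_image_of_mem lab hyb⟩
    omega
  · intro i hi
    by_cases h1 : lab i = lab (c y) ∨ lab i = lab i₁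
    · obtain ⟨j, hj, hjl, hjA⟩ := h.fA (c y) hyb
      refine ⟨j, hj, ?_, ?_⟩
      · rw [if_pos hjl]
        rcases h1 with h1 | h1
        · rw [if_pos h1]
        · split_ifs with h2
          · rfl
          · exact h1.symm
      · intro v hv
        rcases mem_insert.1 hv with rfl | hv
        · intro h2
          rw [← h2] at hjl
          exact hly (hjl.symm.trans hlx)
        · exact hjA v hv
    · push Not at h1
      obtain ⟨j, hj, hjl, hjA⟩ := h.fA i hi
      refine ⟨j, hj, ?_, ?_⟩
      · rw [hjl]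
      · intro v hv
        rcases mem_insert.1 hv with rfl | hv
        · intro h2
          rw [← h2] at hjl
          exact h1.2 (hjl.symm.trans hlx)
        · exact hjA v hv
  · intro i hi
    by_cases h1 : lab i = lab (c y) ∨ lab i = lab i₁
    · obtain ⟨j, hj, hjl, hjB⟩ := h.fB i₁ hi₁
      refine ⟨j, hj, ?_, ?_⟩
      · rw [hjl, if_neg hly.symm]
        rcases h1 with h1 | h1
        · rw [if_pos h1]
        · split_ifs with h2
          · rfl
          · exact h1.symm
      · intro v hv
        rcases mem_insert.1 hv with rfl | hv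
        · intro h2
          rw [← h2] at hjl
          exact hly hjl
        · exact hjB v hv
    · push Not at h1
      obtain ⟨j, hj, hjl, hjB⟩ := h.fB i hi
      refine ⟨j, hj, ?_, ?_⟩
      · rw [hjl]
      · intro v hv
        rcases mem_insert.1 hv with rfl | hv
        · intro h2
          rw [← h2] at hjl
          exact h1.1 hjl.symm
        · exact hjB v hv
  · intro v hv
    rcases mem_insert.1 hv with rfl | hv
    · rw [Function.update_self, if_pos rfl, hlx, if_neg hly.symm]
    · rw [hupd v hv, h.ins v hv]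
  · intro f hf i hi j hj hij
    have hf1 : ∀ x' ∈ A, (f (c x') ↔ f (c (g x'))) := by
      intro x' hx'
      have h1 := hf x' (mem_insert_of_mem hx')
      rwa [hupd x' hx'] at h1
    have hf2 : f (c x) ↔ f (c y) := by
      have h1 := hf x (mem_insert_self _ _)
      rwa [Function.update_self] at h1
    have key := h.con f hf1
    split_ifs at hij with h1 h2 h2
    · exact key i hi j hj (h1.trans h2.symm)
    · exact ((key i hi (c y) hyb h1).trans hf2.symm).trans (key (c x) hxb j hj (hlx.trans hij))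
    · exact ((key i hi (c x) hxb (hij.trans hlx.symm)).trans hf2).trans
        (key (c y) hyb j hj h2.symm)
    · exact key i hi j hj hij

theorem FS.exists {D : Digraph V} {k : ℕ} (hst : Strong D k) {c : V → ι}
    (hk : 4 * Fintype.card ι ≤ k) : ∀ r : ℕ, r < (big c).card →
    ∃ A B g lab, FS D c A B g lab r := by
  intro r
  induction r with
  | zero => exact fun _ => ⟨∅, ∅, id, id, FS.base D c⟩
  | succ r ih =>
    intro hr
    obtain ⟨A, B, g, lab, h⟩ := ih (by omega)
    exact h.step hst hk hr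

end Pool.A7T
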