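import Pool.Agent.Work.MP_a7fe73_theta.Single

/-!
# Completing the forced arcs to a circuit factor
-/

set_option autoImplicit false
set_option linter.unusedSectionVars false

namespace Pool.A7T

open Finset

variable {V ι : Type} [Fintype V] [DecidableEq V] [Fintype ι] [DecidableEq ι]

open Classical in
/-- the possible successors of a free vertex `v` -/
noncomputable def nxt (D : Digraph V) (c : V → ι) (A B : Finset V) (v : V) : Finset V :=
  univ.filter (fun w => c w ∈ big c ∧ w ∉ B ∧ (c v = c w ∨ (v ∉ B ∧ w ∉ A ∧ D.Adj v w)))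

theorem mem_nxt {D : Digraph V} {c : V → ι} {A B : Finset V} {v w : V} :
    w ∈ nxt D c A B v ↔ c w ∈ big c ∧ w ∉ B ∧ (c v = c w ∨ (v ∉ B ∧ w ∉ A ∧ D.Adj v w)) := by
  simp [nxt]

open Classical in
theorem hall_aux {D : Digraph V} {k : ℕ} (hst : Strong D k) {c : V → ι} {A B : Finset V}
    (hk : (Zs c).card + 3 * A.card ≤ k) (hAB : B.card = A.card)
    (dis : ∀ x ∈ A, x ∉ B) (AZ : ∀ x ∈ A, c x ∈ big c) (BZ : ∀ x ∈ B, c x ∈ big c)
    (capA : ∀ i, 2 * (A ∩ T c i).card ≤ (T c i).card)
    (capB : ∀ i, 2 * (B ∩ T c i).card ≤ (T c i).card)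
    (X : Finset V) (hX : ∀ v ∈ X, v ∉ A ∧ c v ∈ big c) :
    X.card ≤ (X.biUnion (nxt D c A B)).card := by
  set J : Finset ι := X.image c with hJ
  set cl : Finset V := univ.filter (fun v => c v ∈ J) with hcl
  set K : Finset ι := big c \ J with hK
  set oc : Finset V := univ.filter (fun v => c v ∈ K) with hoc
  have hJb : J ⊆ big c := by
    intro i hi
    obtain ⟨v, hv, rfl⟩ := mem_image.1 hi
    exact (hX v hv).2
  have hXcl : X ⊆ cl := fun v hv => mem_filter.2 ⟨mem_univ _, mem_image_of_mem c hv⟩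
  -- the partition of `V`
  have hpart : ∀ v, v ∈ Zs c ∨ v ∈ cl ∨ v ∈ oc := by
    intro v
    by_cases h1 : c v ∈ big c
    · by_cases h2 : c v ∈ J
      · exact Or.inr (Or.inl (mem_filter.2 ⟨mem_univ _, h2⟩))
      · exact Or.inr (Or.inr (mem_filter.2 ⟨mem_univ _, mem_sdiff.2 ⟨h1, h2⟩⟩))
    · exact Or.inl (mem_Zs.2 h1)
  have hclb : ∀ v ∈ cl, c v ∈ big c := fun v hv => hJb (mem_filter.1 hv).2
  have hocb : ∀ v ∈ oc, c v ∈ big c := fun v hv => (mem_sdiff.1 (mem_filter.1 hv).2).1
  have hclo : ∀ v ∈ cl, v ∉ oc := fun v hv hv' =>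
    (mem_sdiff.1 (mem_filter.1 hv').2).2 (mem_filter.1 hv).2
  -- capacities
  have hA1 := half capA J
  have hB1 := half capB J
  have hA2 := half capA K
  have eA1 : A.filter (fun x => c x ∈ J) = A ∩ cl := by
    ext v; simp [hcl]
  have eB1 : B.filter (fun x => c x ∈ J) = B ∩ cl := by
    ext v; simp [hcl]
  have eA2 : A.filter (fun x => c x ∈ K) = A ∩ oc := by
    ext v; simp [hoc]
  rw [eA1, ← hcl] at hA1
  rw [eB1, ← hcl] at hB1
  rw [eA2, ← hoc] at hA2
  have sA : (A ∩ cl).card + (A ∩ oc).card = A.card := by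
    rw [← card_union_of_disjoint]
    · congr 1
      ext v
      simp only [mem_union, mem_inter]
      constructor
      · rintro (h | h) <;> exact h.1
      · intro h
        rcases hpart v with h1 | h1 | h1
        · exact absurd (AZ v h) (mem_Zs.1 h1)
        · exact Or.inl ⟨h, h1⟩
        · exact Or.inr ⟨h, h1⟩
    · rw [disjoint_left]
      intro v hv hv'
      exact hclo v (mem_inter.1 hv).2 (mem_inter.1 hv').2
  have sB : (B ∩ cl).card + (B ∩ oc).card = B.card := by
    rw [← card_union_of_disjoint]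
    · congr 1
      ext v
      simp only [mem_union, mem_inter]
      constructor
      · rintro (h | h) <;> exact h.1
      · intro h
        rcases hpart v with h1 | h1 | h1
        · exact absurd (BZ v h) (mem_Zs.1 h1)
        · exact Or.inl ⟨h, h1⟩
        · exact Or.inr ⟨h, h1⟩
    · rw [disjoint_left]
      intro v hv hv'
      exact hclo v (mem_inter.1 hv).2 (mem_inter.1 hv').2
  -- the out-neighbours outside the classes of `X`
  set N : Finset V := oc.filter (fun w => ∃ v ∈ X, v ∉ B ∧ D.Adj v w) with hN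
  have hsub : (cl \ B) ∪ (N \ (A ∪ B)) ⊆ X.biUnion (nxt D c A B) := by
    intro w hw
    rw [mem_biUnion]
    rcases mem_union.1 hw with h1 | h1
    · rw [mem_sdiff] at h1
      obtain ⟨v, hv, hvw⟩ := mem_image.1 (mem_filter.1 h1.1).2
      exact ⟨v, hv, mem_nxt.2 ⟨hclb w h1.1, h1.2, Or.inl hvw⟩⟩
    · rw [mem_sdiff, mem_union] at h1
      push Not at h1
      obtain ⟨hw1, v, hv, hvB, hvw⟩ := mem_filter.1 h1.1
      exact ⟨v, hv, mem_nxt.2 ⟨hocb w hw1, h1.2.2, Or.inr ⟨hvB, h1.2.1, hvw⟩⟩⟩
  have hNoc : N ⊆ oc := filter_subset _ _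
  have hcard : (cl \ B).card + (N \ (A ∪ B)).card ≤ (X.biUnion (nxt D c A B)).card := by
    rw [← card_union_of_disjoint]
    · exact card_le_card hsub
    · rw [disjoint_left]
      intro v hv hv'
      exact hclo v (mem_sdiff.1 hv).1 (hNoc (mem_sdiff.1 hv').1)
  have hclB : (cl \ B).card + (B ∩ cl).card = cl.card := by
    rw [inter_comm, card_sdiff_add_card_inter]
  have hXB : (X \ B).card + (X ∩ B).card = X.card := card_sdiff_add_card_inter _ _
  have hXBle : (X ∩ B).card ≤ (B ∩ cl).card := by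
    refine card_le_card fun v hv => ?_
    rw [mem_inter] at hv ⊢
    exact ⟨hv.2, hXcl hv.1⟩
  have hXle : X.card ≤ (cl \ A).card := by
    refine card_le_card fun v hv => mem_sdiff.2 ⟨hXcl hv, (hX v hv).1⟩
  have hclA : (cl \ A).card + (A ∩ cl).card = cl.card := by
    rw [inter_comm, card_sdiff_add_card_inter]
  -- the number of heads and tails in `N`
  have hNAB : N.card ≤ (N \ (A ∪ B)).card + (A ∩ oc).card + (B ∩ oc).card := by
    have h1 : N ⊆ (N \ (A ∪ B)) ∪ ((A ∩ oc) ∪ (B ∩ oc)) := by
      intro v hv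
      simp only [mem_union, mem_sdiff, mem_inter]
      have h2 := hNoc hv
      by_cases h3 : v ∈ A
      · exact Or.inr (Or.inl ⟨h3, h2⟩)
      · by_cases h4 : v ∈ B
        · exact Or.inr (Or.inr ⟨h4, h2⟩)
        · exact Or.inl ⟨hv, by tauto⟩
    have h2 := (card_le_card h1).trans ((card_union_le _ _).trans (Nat.add_le_add_left
      (card_union_le _ _) _))
    omega
  by_cases hS : (X \ B).Nonempty
  · by_cases hQ : (oc \ N).Nonempty
    · set R : Finset V := Zs c ∪ ((cl \ (X \ B)) ∪ N) with hR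
      have hRk : ¬ R.card < k := by
        intro hlt
        obtain ⟨v, hv, w, hw, hvw⟩ := cut_arc hst hlt hS hQ
          (fun v hv hvR => by
            have h1 := (mem_sdiff.1 hv).1
            have h2 := hXcl h1
            rw [hR, mem_union, mem_union, mem_sdiff] at hvR
            rcases hvR with h3 | h3 | h3
            · exact mem_Zs.1 h3 (hclb v h2)
            · exact h3.2 hv
            · exact hclo v h2 (hNoc h3))
          (fun v hv hvR => by
            have h1 := (mem_sdiff.1 hv).1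
            rw [hR, mem_union, mem_union, mem_sdiff] at hvR
            rcases hvR with h3 | h3 | h3
            · exact mem_Zs.1 h3 (hocb v h1)
            · exact hclo v h3.1 h1
            · exact (mem_sdiff.1 hv).2 h3)
          (fun v hv hv' => hclo v (hXcl (mem_sdiff.1 hv).1) (mem_sdiff.1 hv').1)
          (fun v => by
            rw [hR]
            simp only [mem_union, mem_sdiff]
            have := hpart v
            tauto)
        refine (mem_sdiff.1 hw).2 (mem_filter.2 ⟨(mem_sdiff.1 hw).1, v, (mem_sdiff.1 hv).1,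
          (mem_sdiff.1 hv).2, hvw⟩)
      have h1 : R.card ≤ (Zs c).card + ((cl \ (X \ B)).card + N.card) :=
        (card_union_le _ _).trans (Nat.add_le_add_left (card_union_le _ _) _)
      have h2 : (cl \ (X \ B)).card + (X \ B).card = cl.card :=
        card_sdiff_add_card_eq_card (sdiff_subset.trans hXcl)
      omega
    · rw [not_nonempty_iff_eq_empty, sdiff_eq_empty_iff_subset] at hQ
      have h1 : N = oc := Subset.antisymm hNoc hQ
      rw [h1] at hNAB hcard
      omega
  · rw [not_nonempty_iff_eq_empty] at hS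
    rw [hS, card_empty] at hXB
    omega

theorem hall {D : Digraph V} {k : ℕ} (hst : Strong D k) {c : V → ι} {A B : Finset V}
    (hk : (Zs c).card + 3 * A.card ≤ k) (hAB : B.card = A.card)
    (dis : ∀ x ∈ A, x ∉ B) (AZ : ∀ x ∈ A, c x ∈ big c) (BZ : ∀ x ∈ B, c x ∈ big c)
    (capA : ∀ i, 2 * (A ∩ T c i).card ≤ (T c i).card)
    (capB : ∀ i, 2 * (B ∩ T c i).card ≤ (T c i).card) :
    ∃ f : {v : V // v ∉ A ∧ c v ∈ big c} → V, Function.Injective f ∧
      ∀ v, f v ∈ nxt D c A B v.1 := by
  classical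
  rw [← Finset.all_card_le_biUnion_card_iff_exists_injective
    (fun v : {v : V // v ∉ A ∧ c v ∈ big c} => nxt D c A B v.1)]
  intro s
  have h1 := hall_aux hst hk hAB dis AZ BZ capA capB (s.map (Function.Embedding.subtype _))
    (fun v hv => by
      obtain ⟨w, _, rfl⟩ := mem_map.1 hv
      exact w.2)
  rw [card_map] at h1
  refine h1.trans (card_le_card ?_)
  intro w hw
  rw [mem_biUnion] at hw ⊢
  obtain ⟨v, hv, hvw⟩ := hw
  obtain ⟨u, hu, rfl⟩ := mem_map.1 hv
  exact ⟨u, hu, hvw⟩

end Pool.A7T
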