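import Pool.Agent.Work.MP_a7fe73_theta.Hall

/-!
# From a circuit factor to a Hamilton circuit
-/

set_option autoImplicit false
set_option linter.unusedSectionVars false

namespace Pool.A7T

open Finset Equiv

variable {V ι : Type} [Fintype V] [DecidableEq V] [Fintype ι] [DecidableEq ι]

/-- multiplying by a transposition of two points in different cycles merges the two cycles -/
theorem merge_left (σ : Perm V) {a b : V} (hab : ¬ σ.SameCycle a b) :
    ∀ n : ℕ, (σ * swap a b).SameCycle (σ a) ((σ ^ (n + 1)) a) := by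
  intro n
  induction n with
  | zero => simpa using Perm.SameCycle.refl _ _
  | succ n ih =>
    have h1 : (σ ^ (n + 1 + 1)) a = σ ((σ ^ (n + 1)) a) := by
      rw [pow_succ', Perm.mul_apply]
    rw [h1]
    by_cases h2 : (σ ^ (n + 1)) a = a
    · rw [h2]
    · have h3 : (σ ^ (n + 1)) a ≠ b := by
        intro h4
        exact hab ⟨(n + 1 : ℕ), by rw [zpow_natCast]; exact h4⟩
      have h5 : (σ * swap a b) ((σ ^ (n + 1)) a) = σ ((σ ^ (n + 1)) a) := by
        rw [Perm.mul_apply, swap_apply_of_ne_of_ne h2 h3]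
      rw [← h5]
      exact ih.trans (Perm.sameCycle_apply_right.2 (Perm.SameCycle.refl _ _))

theorem merge_point (σ : Perm V) {a b : V} (hab : ¬ σ.SameCycle a b) :
    (σ * swap a b).SameCycle (σ a) a := by
  have h1 := merge_left σ hab (orderOf σ - 1)
  have h2 : 0 < orderOf σ := orderOf_pos σ
  rw [Nat.sub_add_cancel h2, pow_orderOf_eq_one] at h1
  exact h1

theorem merge_swap (σ : Perm V) {a b : V} (hab : ¬ σ.SameCycle a b) :
    (σ * swap a b).SameCycle a b := by
  have hba : ¬ σ.SameCycle b a := fun h => hab h.symm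
  have h2 := merge_point σ hba
  rw [swap_comm] at h2
  have h3 : (σ * swap a b) a = σ b := by rw [Perm.mul_apply, swap_apply_left]
  have h4 : (σ * swap a b).SameCycle a (σ b) := by
    rw [← h3]
    exact Perm.sameCycle_apply_right.2 (Perm.SameCycle.refl _ _)
  exact h4.trans h2

theorem merge_mono (σ : Perm V) {a b : V} (hab : ¬ σ.SameCycle a b) {x y : V}
    (h : σ.SameCycle x y) : (σ * swap a b).SameCycle x y := by
  have hba : ¬ σ.SameCycle b a := fun h => hab h.symm
  have step : ∀ v, (σ * swap a b).SameCycle v (σ v) := by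
    intro v
    by_cases h1 : v = a
    · rw [h1]
      exact (merge_point σ hab).symm
    · by_cases h2 : v = b
      · rw [h2]
        have h3 := merge_point σ hba
        rw [swap_comm] at h3
        exact h3.symm
      · have h3 : (σ * swap a b) v = σ v := by
          rw [Perm.mul_apply, swap_apply_of_ne_of_ne h1 h2]
        rw [← h3]
        exact Perm.sameCycle_apply_right.2 (Perm.SameCycle.refl _ _)
  have hn : ∀ n : ℕ, ∀ v, (σ * swap a b).SameCycle v ((σ ^ n) v) := by
    intro n v
    induction n with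
    | zero => simpa using Perm.SameCycle.refl _ _
    | succ n ih =>
      rw [pow_succ', Perm.mul_apply]
      exact ih.trans (step _)
  obtain ⟨n, _, hn'⟩ := h.exists_pow_eq'
  rw [← hn']
  exact hn n x

/-- the admissible circuit factors -/
structure Good (D : Digraph V) (c : V → ι) (A B : Finset V) (g : V → V) (σ : Perm V) : Prop where
  forced : ∀ x, (x ∈ A ∨ c x ∉ big c) → σ x = g x
  free : ∀ x, x ∉ A → c x ∈ big c → c x = c (σ x) ∨ (x ∉ B ∧ σ x ∉ A ∧ D.Adj x (σ x))

open Classical in
/-- number of arcs between different classes -/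
noncomputable def inter (c : V → ι) (σ : Perm V) : ℕ :=
  (univ.filter (fun v => c v ≠ c (σ v))).card

open Classical in
/-- number of pairs in the same cycle -/
noncomputable def pairs (σ : Perm V) : ℕ :=
  (univ.filter (fun p : V × V => σ.SameCycle p.1 p.2)).card

theorem exists_good {D : Digraph V} {k : ℕ} (hst : Strong D k) {c : V → ι} {A B : Finset V}
    {g : V → V} (h : GS D c A B g (Zs c)) (hk : (Zs c).card + 3 * A.card ≤ k) :
    ∃ σ : Perm V, Good D c A B g σ := by
  classical
  obtain ⟨f, hf, hfm⟩ := hall hst hk h.cB h.dis h.AZ h.BZ h.capA h.capB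
  have hdom : ∀ v, v ∈ A ∪ Zs c ↔ ¬ (v ∉ A ∧ c v ∈ big c) := by
    intro v
    rw [mem_union, mem_Zs]
    tauto
  set s : V → V := fun v => if hv : v ∉ A ∧ c v ∈ big c then f ⟨v, hv⟩ else g v with hs
  have hs1 : ∀ v (hv : v ∉ A ∧ c v ∈ big c), s v = f ⟨v, hv⟩ := fun v hv => by
    rw [hs]; simp only [dif_pos hv]
  have hs2 : ∀ v, ¬ (v ∉ A ∧ c v ∈ big c) → s v = g v := fun v hv => by
    rw [hs]; simp only [dif_neg hv]
  have hgm : ∀ v, ¬ (v ∉ A ∧ c v ∈ big c) → g v ∈ B ∨ c (g v) ∉ big c := by
    intro v hv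
    have h1 : g v ∈ B ∪ Zs c := by
      rw [← h.im]
      exact mem_image_of_mem g ((hdom v).2 hv)
    rwa [mem_union, mem_Zs] at h1
  have hinj : Function.Injective s := by
    intro u v huv
    by_cases hu : u ∉ A ∧ c u ∈ big c <;> by_cases hv : v ∉ A ∧ c v ∈ big c
    · rw [hs1 u hu, hs1 v hv] at huv
      exact congrArg Subtype.val (hf huv)
    · rw [hs1 u hu, hs2 v hv] at huv
      have h1 := mem_nxt.1 (hfm ⟨u, hu⟩)
      rw [huv] at h1
      rcases hgm v hv with h2 | h2
      · exact absurd h2 h1.2.1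
      · exact absurd h1.1 h2
    · rw [hs2 u hu, hs1 v hv] at huv
      have h1 := mem_nxt.1 (hfm ⟨v, hv⟩)
      rw [← huv] at h1
      rcases hgm u hu with h2 | h2
      · exact absurd h2 h1.2.1
      · exact absurd h1.1 h2
    · rw [hs2 u hu, hs2 v hv] at huv
      exact h.inj (mem_coe.2 ((hdom u).2 hu)) (mem_coe.2 ((hdom v).2 hv)) huv
  refine ⟨Equiv.ofBijective s (Finite.injective_iff_bijective.1 hinj), ?_, ?_⟩
  · intro x hx
    exact hs2 x (fun h1 => by rcases hx with h2 | h2; exacts [h1.1 h2, h2 h1.2])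
  · intro x hxA hxb
    have h1 := mem_nxt.1 (hfm ⟨x, hxA, hxb⟩)
    have h2 : (Equiv.ofBijective s (Finite.injective_iff_bijective.1 hinj)) x
        = f ⟨x, hxA, hxb⟩ := hs1 x ⟨hxA, hxb⟩
    rw [h2]
    exact h1.2.2

theorem exists_single {D : Digraph V} {k : ℕ} (hst : Strong D k) {c : V → ι}
    (hc : ∀ u v, u ≠ v → c u = c v → D.Adj u v) {A B : Finset V}
    {g : V → V} (h : GS D c A B g (Zs c)) (hk : (Zs c).card + 3 * A.card ≤ k)
    (hcard : 2 ≤ Fintype.card V) :
    ∃ σ : Perm V, (∀ u v, σ.SameCycle u v) ∧ ∀ v, D.Adj v (σ v) := by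
  classical
  obtain ⟨σ₀, hσ₀⟩ := exists_good hst h hk
  set G : Finset (Perm V) := univ.filter (fun σ => Good D c A B g σ) with hG
  have hGne : G.Nonempty := ⟨σ₀, by rw [hG, mem_filter]; exact ⟨mem_univ _, hσ₀⟩⟩
  obtain ⟨σ₁, hσ₁, hmin₁⟩ := exists_min_image G (inter c) hGne
  set G' : Finset (Perm V) := G.filter (fun σ => inter c σ = inter c σ₁) with hG'
  obtain ⟨σ, hσ, hmax⟩ := exists_max_image G' (pairs (V := V))
    ⟨σ₁, by rw [hG', mem_filter]; exact ⟨hσ₁, rfl⟩⟩
  rw [hG', mem_filter] at hσ
  obtain ⟨hσG, hσi⟩ := hσ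
  have hgood : Good D c A B g σ := by
    rw [hG, mem_filter] at hσG
    exact hσG.2
  have hmin : ∀ τ, Good D c A B g τ → inter c σ ≤ inter c τ := by
    intro τ hτ
    rw [hσi]
    exact hmin₁ τ (by rw [hG, mem_filter]; exact ⟨mem_univ _, hτ⟩)
  have hmax' : ∀ τ, Good D c A B g τ → inter c τ ≤ inter c σ → pairs τ ≤ pairs σ := by
    intro τ hτ hi
    refine hmax τ ?_
    rw [hG', mem_filter]
    refine ⟨by rw [hG, mem_filter]; exact ⟨mem_univ _, hτ⟩, ?_⟩
    have := hmin τ hτ
    omega
  -- intra vertices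
  set I : V → Prop := fun v => v ∉ A ∧ c v ∈ big c ∧ c v = c (σ v) with hI
  -- Claim 1
  have claim1 : ∀ v v', I v → I v' → c v = c v' → σ.SameCycle v v' := by
    intro v v' hv hv' hcc
    by_contra hno
    have hg : Good D c A B g (σ * swap v v') := by
      refine ⟨fun x hx => ?_, fun x hxA hxb => ?_⟩
      · have h1 : x ≠ v := by
          rintro rfl
          rcases hx with h2 | h2
          · exact hv.1 h2
          · exact h2 hv.2.1
        have h2 : x ≠ v' := by
          rintro rfl
          rcases hx with h2 | h2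
          · exact hv'.1 h2
          · exact h2 hv'.2.1
        rw [Perm.mul_apply, swap_apply_of_ne_of_ne h1 h2]
        exact hgood.forced x hx
      · by_cases h1 : x = v
        · left
          rw [h1, Perm.mul_apply, swap_apply_left, ← hv'.2.2, hcc]
        · by_cases h2 : x = v'
          · left
            rw [h2, Perm.mul_apply, swap_apply_right, ← hv.2.2, hcc]
          · rw [Perm.mul_apply, swap_apply_of_ne_of_ne h1 h2]
            exact hgood.free x hxA hxb
    have hi : inter c (σ * swap v v') ≤ inter c σ := by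
      refine card_le_card fun x hx => ?_
      rw [mem_filter] at hx ⊢
      refine ⟨mem_univ _, ?_⟩
      by_cases h1 : x = v
      · exfalso
        apply hx.2
        rw [h1, Perm.mul_apply, swap_apply_left, ← hv'.2.2, hcc]
      · by_cases h2 : x = v'
        · exfalso
          apply hx.2
          rw [h2, Perm.mul_apply, swap_apply_right, ← hv.2.2, hcc]
        · have h3 := hx.2
          rw [Perm.mul_apply, swap_apply_of_ne_of_ne h1 h2] at h3
          exact h3
    have h1 := hmax' _ hg hi
    have h2 : pairs σ < pairs (σ * swap v v') := by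
      refine card_lt_card ?_
      rw [ssubset_iff_of_subset]
      · refine ⟨(v, v'), ?_, ?_⟩
        · rw [mem_filter]
          exact ⟨mem_univ _, merge_swap σ hno⟩
        · rw [mem_filter]
          exact fun h3 => hno h3.2
      · intro p hp
        rw [mem_filter] at hp ⊢
        exact ⟨mem_univ _, merge_mono σ hno hp.2⟩
    omega
  -- Claim 2
  have claim2 : ∀ v₀, ∃ v, σ.SameCycle v₀ v ∧ ¬ (v ∉ A ∧ c v ∈ big c ∧ c v ≠ c (σ v)) := by
    intro v₀
    by_contra hno
    push Not at hno
    set s : V → V := fun v => if σ.SameCycle v₀ v then v else σ v with hs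
    have hs1 : ∀ v, σ.SameCycle v₀ v → s v = v := fun v hv => if_pos hv
    have hs2 : ∀ v, ¬ σ.SameCycle v₀ v → s v = σ v := fun v hv => if_neg hv
    have hinj : Function.Injective s := by
      intro u v huv
      by_cases hu : σ.SameCycle v₀ u <;> by_cases hv : σ.SameCycle v₀ v
      · rw [hs1 u hu, hs1 v hv] at huv
        exact huv
      · rw [hs1 u hu, hs2 v hv] at huv
        exfalso
        apply hv
        rw [huv] at hu
        exact Perm.sameCycle_apply_right.1 hu
      · rw [hs2 u hu, hs1 v hv] at huv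
        exfalso
        apply hu
        rw [← huv] at hv
        exact Perm.sameCycle_apply_right.1 hv
      · rw [hs2 u hu, hs2 v hv] at huv
        exact σ.injective huv
    set τ : Perm V := Equiv.ofBijective s (Finite.injective_iff_bijective.1 hinj) with hτ
    have hτs : ∀ v, τ v = s v := fun v => rfl
    have hg : Good D c A B g τ := by
      refine ⟨fun x hx => ?_, fun x hxA hxb => ?_⟩
      · rw [hτs, hs2 x]
        · exact hgood.forced x hx
        · intro h1
          have h2 := hno x h1
          rcases hx with h3 | h3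
          · exact h2.1 h3
          · exact h3 h2.2.1
      · by_cases h1 : σ.SameCycle v₀ x
        · left
          rw [hτs, hs1 x h1]
        · rw [hτs, hs2 x h1]
          exact hgood.free x hxA hxb
    have h1 := hmin τ hg
    have h2 : inter c τ < inter c σ := by
      refine card_lt_card ?_
      rw [ssubset_iff_of_subset]
      · refine ⟨v₀, ?_, ?_⟩
        · rw [mem_filter]
          exact ⟨mem_univ _, (hno v₀ (Perm.SameCycle.refl _ _)).2.2⟩
        · rw [mem_filter, hτs, hs1 v₀ (Perm.SameCycle.refl _ _)]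
          exact fun h3 => h3.2 rfl
      · intro v hv
        rw [mem_filter] at hv ⊢
        refine ⟨mem_univ _, ?_⟩
        by_cases h3 : σ.SameCycle v₀ v
        · exfalso
          apply hv.2
          rw [hτs, hs1 v h3]
        · have h4 := hv.2
          rw [hτs, hs2 v h3] at h4
          exact h4
    omega
  -- the vertex before a forced tail is intra
  have hpre : ∀ x ∈ A, I (σ.symm x) ∧ c (σ.symm x) = c x := by
    intro x hx
    have hxB : x ∉ B := h.dis x hx
    have hxb := h.AZ x hx
    have h1 : ¬ (σ.symm x ∈ A ∨ c (σ.symm x) ∉ big c) := by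
      intro h2
      have h3 := hgood.forced _ h2
      rw [Equiv.apply_symm_apply] at h3
      have h4 : g (σ.symm x) ∈ B ∪ Zs c := by
        rw [← h.im]
        refine mem_image_of_mem g ?_
        rw [mem_union, mem_Zs]
        exact h2
      rw [← h3, mem_union, mem_Zs] at h4
      rcases h4 with h5 | h5
      · exact hxB h5
      · exact h5 hxb
    push Not at h1
    have h2 := hgood.free _ h1.1 h1.2
    rw [Equiv.apply_symm_apply] at h2
    have h3 : c (σ.symm x) = c x := by
      rcases h2 with h3 | h3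
      · exact h3
      · exact absurd hx h3.2.1
    refine ⟨⟨h1.1, h1.2, ?_⟩, h3⟩
    rw [Equiv.apply_symm_apply]
    exact h3
  have hpost : ∀ y ∈ B, I y := by
    intro y hy
    have hyA : y ∉ A := fun h1 => h.dis y h1 hy
    have hyb := h.BZ y hy
    refine ⟨hyA, hyb, ?_⟩
    rcases hgood.free y hyA hyb with h1 | h1
    · exact h1
    · exact absurd hy h1.1
  -- Claim 3
  have claim3 : ∀ v₀, ∃ v, σ.SameCycle v₀ v ∧ I v := by
    intro v₀
    obtain ⟨v, hv, hv'⟩ := claim2 v₀
    by_cases h1 : v ∈ A
    · refine ⟨σ.symm v, ?_, (hpre v h1).1⟩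
      have h2 : σ.SameCycle (σ.symm v) v := by
        have h3 : σ.SameCycle (σ.symm v) (σ (σ.symm v)) :=
          Perm.sameCycle_apply_right.2 (Perm.SameCycle.refl _ _)
        rwa [Equiv.apply_symm_apply] at h3
      exact hv.trans h2.symm
    · by_cases h2 : c v ∈ big c
      · refine ⟨v, hv, h1, h2, ?_⟩
        by_contra h3
        exact hv' ⟨h1, h2, h3⟩
      · refine ⟨σ v, Perm.sameCycle_apply_right.2 hv, hpost _ ?_⟩
        rw [hgood.forced v (Or.inr h2)]
        exact h.zB v (mem_Zs.2 h2)
  -- all cycles coincide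
  have hne : Nonempty V := Fintype.card_pos_iff.1 (by omega)
  obtain ⟨v₁⟩ := hne
  obtain ⟨vs, _, hvs⟩ := claim3 v₁
  have hcon := h.con (fun i => ∀ v, I v → c v = i → σ.SameCycle vs v) (by
    intro x hx hgx
    obtain ⟨hp1, hp2⟩ := hpre x hx
    have hy := hpost _ hgx
    have hxg : σ x = g x := hgood.forced x (Or.inl hx)
    have hs1 : σ.SameCycle (σ.symm x) (g x) := by
      have h3 : σ.SameCycle (σ.symm x) (σ (σ (σ.symm x))) :=
        Perm.sameCycle_apply_right.2 (Perm.sameCycle_apply_right.2 (Perm.SameCycle.refl _ _))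
      rwa [Equiv.apply_symm_apply, hxg] at h3
    constructor
    · intro h1 v hv hvc
      have h2 := h1 _ hp1 hp2
      exact (h2.trans hs1).trans (claim1 _ _ hy hv hvc.symm)
    · intro h1 v hv hvc
      have h2 := h1 _ hy rfl
      exact (h2.trans hs1.symm).trans (claim1 _ _ hp1 hv (hp2.trans hvc.symm)))
  have hall' : ∀ v, I v → σ.SameCycle vs v := by
    intro v hv
    exact (hcon (c vs) hvs.2.1 (c v) hv.2.1).1
      (fun w hw hwc => claim1 _ _ hvs hw hwc.symm) v hv rfl
  have hone : ∀ u v, σ.SameCycle u v := by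
    intro u v
    obtain ⟨u', hu, hu'⟩ := claim3 u
    obtain ⟨v', hv, hv'⟩ := claim3 v
    exact (hu.trans ((hall' _ hu').symm.trans (hall' _ hv'))).trans hv.symm
  refine ⟨σ, hone, fun v => ?_⟩
  have hfix : σ v ≠ v := by
    intro h1
    have : Nontrivial V := Fintype.one_lt_card_iff_nontrivial.1 (by omega)
    obtain ⟨w, hw⟩ := exists_ne v
    obtain ⟨n, hn⟩ := hone v w
    apply hw
    rw [← hn]
    exact Perm.zpow_apply_eq_self_of_apply_eq_self h1 n
  by_cases h1 : v ∈ A ∨ c v ∉ big c
  · rw [hgood.forced v h1]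
    refine h.arc v ?_
    rw [mem_union, mem_Zs]
    exact h1
  · push Not at h1
    rcases hgood.free v h1.1 h1.2 with h2 | h2
    · exact hc v (σ v) (Ne.symm hfix) h2
    · exact h2.2.2

end Pool.A7T
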