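import Pool.Agent.Work.MP_a7fe73_theta.Forest

/-!
# Forced passages through the classes with one vertex
-/

set_option autoImplicit false
set_option linter.unusedSectionVars false

namespace Pool.A7T

open Finset

variable {V ι : Type} [Fintype V] [DecidableEq V] [Fintype ι] [DecidableEq ι]

/-- state of the construction of the forced arcs -/
structure GS (D : Digraph V) (c : V → ι) (A B : Finset V) (g : V → V) (W : Finset V) :
    Prop where
  WZ : ∀ z ∈ W, c z ∉ big c
  cA : A.card + 1 = (big c).card + W.card
  cB : B.card = A.card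
  im : (A ∪ W).image g = B ∪ W
  inj : Set.InjOn g ((A ∪ W : Finset V) : Set V)
  dis : ∀ x ∈ A, x ∉ B
  AZ : ∀ x ∈ A, c x ∈ big c
  BZ : ∀ x ∈ B, c x ∈ big c
  arc : ∀ x ∈ A ∪ W, D.Adj x (g x)
  zB : ∀ z ∈ W, g z ∈ B
  capA : ∀ i, 2 * (A ∩ T c i).card ≤ (T c i).card
  capB : ∀ i, 2 * (B ∩ T c i).card ≤ (T c i).card
  con : ∀ f : ι → Prop, (∀ x ∈ A, g x ∈ B → (f (c x) ↔ f (c (g x)))) →
    ∀ i ∈ big c, ∀ j ∈ big c, (f i ↔ f j)

theorem GS.base {D : Digraph V} {k : ℕ} (hst : Strong D k) {c : V → ι}
    (hk : 4 * Fintype.card ι ≤ k) (hb : 0 < (big c).card) :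
    ∃ A B g, GS D c A B g ∅ := by
  obtain ⟨A, B, g, lab, h⟩ := FS.exists (c := c) hst hk ((big c).card - 1) (by omega)
  have hlc := h.lc
  have h1 : ((big c).image lab).card = 1 := by omega
  refine ⟨A, B, g, ?_, ?_, ?_, ?_, ?_, h.dis, h.AZ, h.BZ, ?_, ?_, h.capA, h.capB, ?_⟩
  · simp
  · have := h.cA
    rw [card_empty]
    omega
  · rw [← h.im, card_image_of_injOn h.inj]
  · rw [union_empty, union_empty, h.im]
  · rw [union_empty]
    exact h.inj
  · rw [union_empty]
    exact h.arc
  · simp
  · intro f hf i hi j hj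
    refine h.con f (fun x hx => hf x hx ?_) i hi j hj ?_
    · rw [← h.im]
      exact mem_image_of_mem g hx
    · exact card_le_one.1 h1.le _ (mem_image_of_mem lab hi) _ (mem_image_of_mem lab hj)

theorem GS.step {D : Digraph V} {k : ℕ} (hst : Strong D k) {c : V → ι}
    (hk : 4 * Fintype.card ι ≤ k) {A B : Finset V} {g : V → V} {W : Finset V}
    (h : GS D c A B g W) {z : V} (hz : c z ∉ big c) (hzW : z ∉ W) :
    ∃ A' B' g', GS D c A' B' g' (insert z W) := by
  have hZb := card_Z_big c
  have hWZ : W.card + 1 ≤ (Zs c).card := by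
    rw [← card_insert_of_notMem hzW]
    refine card_le_card fun v hv => ?_
    rw [mem_Zs]
    rcases mem_insert.1 hv with rfl | hv
    · exact hz
    · exact h.WZ v hv
  have hzA : z ∉ A := fun h1 => hz (h.AZ z h1)
  have hzB : z ∉ B := fun h1 => hz (h.BZ z h1)
  have hZe : ((Zs c).erase z).card + 1 = (Zs c).card :=
    card_erase_add_one (mem_Zs.2 hz)
  have hA := h.cA
  have hB := h.cB
  -- the vertex before `z`
  obtain ⟨u, huz, huR⟩ : ∃ u, D.Adj u z ∧
      u ∉ (Zs c).erase z ∪ (A ∪ (B ∪ (SO c A (big c)))) ∧ u ≠ z := by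
    set R := (Zs c).erase z ∪ (A ∪ (B ∪ (SO c A (big c)))) with hR
    have hRc : R.card + 1 < k := by
      have h1 : R ⊆ (Zs c).erase z ∪ (A ∪ (B ∪ (SO c A (big c) \ A))) := by
        intro v hv
        rw [hR] at hv
        simp only [mem_union, mem_sdiff] at hv ⊢
        tauto
      have h2 := (card_le_card h1).trans ((card_union_le _ _).trans (Nat.add_le_add_left
        ((card_union_le _ _).trans (Nat.add_le_add_left (card_union_le _ _) _)) _))
      have h3 := card_SO c A (big c)
      have h4 : (A.filter (fun x => c x ∈ big c)).card ≤ A.card := card_filter_le _ _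
      omega
    have hzR : z ∉ R := by
      rw [hR]
      simp only [mem_union, mem_erase, mem_SO]
      push Not
      exact ⟨fun h1 => absurd rfl h1, hzA, hzB, fun h1 => absurd h1 hz⟩
    have hS : (univ \ insert z R).Nonempty := by
      rw [sdiff_nonempty]
      intro hsub
      have h1 := card_le_card hsub
      have h2 := card_insert_le z R
      have h3 := hst.1
      rw [card_univ] at h1
      omega
    obtain ⟨u, hu, y, hy, huy⟩ := cut_arc hst (by omega) hS (singleton_nonempty z)
      (fun v hv hv' => (mem_sdiff.1 hv).2 (mem_insert_of_mem hv'))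
      (fun v hv => by rw [mem_singleton.1 hv]; exact hzR)
      (fun v hv hv' => (mem_sdiff.1 hv).2 (by rw [mem_singleton.1 hv']; exact mem_insert_self _ _))
      (fun v => by
        by_cases h1 : v ∈ R
        · exact Or.inl h1
        · by_cases h2 : v = z
          · exact Or.inr (Or.inr (mem_singleton.2 h2))
          · refine Or.inr (Or.inl (mem_sdiff.2 ⟨mem_univ _, fun h3 => ?_⟩))
            rcases mem_insert.1 h3 with h4 | h4
            · exact h2 h4
            · exact h1 h4)
    rw [mem_singleton.1 hy] at huy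
    refine ⟨u, huy, fun h1 => (mem_sdiff.1 hu).2 (mem_insert_of_mem h1), fun h1 => ?_⟩
    exact (mem_sdiff.1 hu).2 (by rw [h1]; exact mem_insert_self _ _)
  obtain ⟨huR, hune⟩ := huR
  simp only [mem_union, mem_erase, mem_Zs] at huR
  push Not at huR
  obtain ⟨hub, huA, huB, huSO⟩ := huR
  have hub' : c u ∈ big c := hub hune
  -- the vertex after `z`
  obtain ⟨w, hzw, hwR⟩ : ∃ w, D.Adj z w ∧
      w ∉ (Zs c).erase z ∪ (insert u A ∪ (B ∪ (SO c B (big c)))) ∧ w ≠ z := by
    set R := (Zs c).erase z ∪ (insert u A ∪ (B ∪ (SO c B (big c)))) with hR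
    have hRc : R.card + 1 < k := by
      have h1 : R ⊆ (Zs c).erase z ∪ (insert u A ∪ (B ∪ (SO c B (big c) \ B))) := by
        intro v hv
        rw [hR] at hv
        simp only [mem_union, mem_sdiff] at hv ⊢
        tauto
      have h2 := (card_le_card h1).trans ((card_union_le _ _).trans (Nat.add_le_add_left
        ((card_union_le _ _).trans (Nat.add_le_add_left (card_union_le _ _) _)) _))
      have h3 := card_SO c B (big c)
      have h4 : (B.filter (fun x => c x ∈ big c)).card ≤ B.card := card_filter_le _ _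
      have h5 := card_insert_le u A
      omega
    have hzR : z ∉ R := by
      rw [hR]
      simp only [mem_union, mem_erase, mem_SO, mem_insert]
      push Not
      exact ⟨fun h1 => absurd rfl h1, ⟨hune.symm, hzA⟩, hzB, fun h1 => absurd h1 hz⟩
    have hS : (univ \ insert z R).Nonempty := by
      rw [sdiff_nonempty]
      intro hsub
      have h1 := card_le_card hsub
      have h2 := card_insert_le z R
      have h3 := hst.1
      rw [card_univ] at h1
      omega
    obtain ⟨y, hy, w, hw, hyw⟩ := cut_arc hst (by omega) (singleton_nonempty z) hS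
      (fun v hv => by rw [mem_singleton.1 hv]; exact hzR)
      (fun v hv hv' => (mem_sdiff.1 hv).2 (mem_insert_of_mem hv'))
      (fun v hv hv' => (mem_sdiff.1 hv').2 (by rw [mem_singleton.1 hv]; exact mem_insert_self _ _))
      (fun v => by
        by_cases h1 : v ∈ R
        · exact Or.inl h1
        · by_cases h2 : v = z
          · exact Or.inr (Or.inl (mem_singleton.2 h2))
          · refine Or.inr (Or.inr (mem_sdiff.2 ⟨mem_univ _, fun h3 => ?_⟩))
            rcases mem_insert.1 h3 with h4 | h4
            · exact h2 h4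
            · exact h1 h4)
    rw [mem_singleton.1 hy] at hyw
    refine ⟨w, hyw, fun h1 => (mem_sdiff.1 hw).2 (mem_insert_of_mem h1), fun h1 => ?_⟩
    exact (mem_sdiff.1 hw).2 (by rw [h1]; exact mem_insert_self _ _)
  obtain ⟨hwR, hwne⟩ := hwR
  simp only [mem_union, mem_erase, mem_Zs, mem_insert] at hwR
  push Not at hwR
  obtain ⟨hwb, ⟨hwu, hwA⟩, hwB, hwSO⟩ := hwR
  have hwb' : c w ∈ big c := hwb hwne
  have huW : u ∉ W := fun h1 => h.WZ u h1 hub'
  have hwW : w ∉ W := fun h1 => h.WZ w h1 hwb'
  set g' := Function.update (Function.update g u z) z w with hg'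
  have hgz : g' z = w := by rw [hg', Function.update_self]
  have hgu : g' u = z := by rw [hg', Function.update_of_ne hune, Function.update_self]
  have hgo : ∀ v ∈ A ∪ W, g' v = g v := by
    intro v hv
    have h1 : v ≠ z := by
      rintro rfl
      rcases mem_union.1 hv with h2 | h2
      · exact hzA h2
      · exact hzW h2
    have h2 : v ≠ u := by
      rintro rfl
      rcases mem_union.1 hv with h2 | h2
      · exact huA h2
      · exact huW h2
    rw [hg', Function.update_of_ne h1, Function.update_of_ne h2]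
  have hgB : ∀ v ∈ A ∪ W, g v ∈ B ∪ W := fun v hv => by
    rw [← h.im]; exact mem_image_of_mem g hv
  have hU : insert u A ∪ insert z W = insert u (insert z (A ∪ W)) := by
    ext v
    simp only [mem_union, mem_insert]
    tauto
  refine ⟨insert u A, insert w B, g', ?_, ?_, ?_, ?_, ?_, ?_, ?_, ?_, ?_, ?_, ?_, ?_, ?_⟩
  · intro v hv
    rcases mem_insert.1 hv with rfl | hv
    · exact hz
    · exact h.WZ v hv
  · rw [card_insert_of_notMem huA, card_insert_of_notMem hzW]
    omega
  · rw [card_insert_of_notMem huA, card_insert_of_notMem hwB]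
    omega
  · rw [hU, image_insert, image_insert, hgz, hgu, image_congr (fun v hv => hgo v (mem_coe.1 hv)),
      h.im]
    ext v
    simp only [mem_union, mem_insert]
    tauto
  · rw [hU]
    have hzBW : z ∉ B ∪ W := fun h1 => by
      rcases mem_union.1 h1 with h2 | h2
      · exact hzB h2
      · exact hzW h2
    have hwBW : w ∉ B ∪ W := fun h1 => by
      rcases mem_union.1 h1 with h2 | h2
      · exact hwB h2
      · exact hwW h2
    intro v hv v' hv' hvv
    rw [mem_coe, mem_insert, mem_insert] at hv hv'
    rcases hv with rfl | rfl | hv <;> rcases hv' with rfl | rfl | hv'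
    · rfl
    · rw [hgu, hgz] at hvv
      exact absurd hvv.symm hwne
    · rw [hgu, hgo v' hv'] at hvv
      exact absurd (hvv ▸ hgB v' hv') hzBW
    · rw [hgu, hgz] at hvv
      exact absurd hvv hwne
    · rfl
    · rw [hgz, hgo v' hv'] at hvv
      exact absurd (hvv ▸ hgB v' hv') hwBW
    · rw [hgu, hgo v hv] at hvv
      exact absurd (hvv ▸ hgB v hv) hzBW
    · rw [hgz, hgo v hv] at hvv
      exact absurd (hvv ▸ hgB v hv) hwBW
    · rw [hgo v hv, hgo v' hv'] at hvv
      exact h.inj (mem_coe.2 hv) (mem_coe.2 hv') hvv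
  · intro v hv hv'
    rw [mem_insert] at hv hv'
    rcases hv with rfl | hv <;> rcases hv' with h1 | h1
    · exact hwu h1.symm
    · exact huB h1
    · exact hwA (h1 ▸ hv)
    · exact h.dis v hv h1
  · intro v hv
    rcases mem_insert.1 hv with rfl | hv
    · exact hub'
    · exact h.AZ v hv
  · intro v hv
    rcases mem_insert.1 hv with rfl | hv
    · exact hwb'
    · exact h.BZ v hv
  · intro v hv
    rw [hU, mem_insert, mem_insert] at hv
    rcases hv with rfl | rfl | hv
    · rw [hgu]; exact huz
    · rw [hgz]; exact hzw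
    · rw [hgo v hv]; exact h.arc v hv
  · intro v hv
    rcases mem_insert.1 hv with rfl | hv
    · rw [hgz]; exact mem_insert_self _ _
    · rw [hgo v (mem_union_right _ hv)]
      exact mem_insert_of_mem (h.zB v hv)
  · exact cap_insert h.capA hub' huSO
  · exact cap_insert h.capB hwb' hwSO
  · intro f hf
    refine h.con f (fun x hx hgx => ?_)
    have h1 := hf x (mem_insert_of_mem hx)
    rw [hgo x (mem_union_left _ hx)] at h1
    exact h1 (mem_insert_of_mem hgx)

theorem GS.exists {D : Digraph V} {k : ℕ} (hst : Strong D k) {c : V → ι}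
    (hk : 4 * Fintype.card ι ≤ k) (hb : 0 < (big c).card) :
    ∃ A B g, GS D c A B g (Zs c) := by
  have key : ∀ W : Finset V, W ⊆ Zs c → ∃ A B g, GS D c A B g W := by
    intro W
    induction W using Finset.induction_on with
    | empty => exact fun _ => GS.base hst hk hb
    | insert z W hz ih =>
      intro hsub
      obtain ⟨A, B, g, h⟩ := ih (fun v hv => hsub (mem_insert_of_mem hv))
      exact h.step hst hk (mem_Zs.1 (hsub (mem_insert_self _ _))) hz
  exact key _ (Subset.refl _)

end Pool.A7T
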